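import Pool.Agent.H8.MC.FTargets

/-!
# Lemmas about components
-/

set_option autoImplicit false

namespace Pool.Agent.H8.MF

open Pool.Agent.H8.MC

variable {V : Type} {G : SimpleGraph V} {co : V → Option (ZMod 3 × ZMod 3)}

theorem cm_refl (u : V) : Cm G co u u := Relation.ReflTransGen.refl

theorem cm_symm {u v : V} (h : Cm G co u v) : Cm G co v u := by
  induction h with
  | refl => exact Relation.ReflTransGen.refl
  | tail _ h2 ih => exact Relation.ReflTransGen.head ⟨h2.1.symm, h2.2.symm⟩ ih

theorem cm_trans {u v w : V} (h : Cm G co u v) (h' : Cm G co v w) : Cm G co u w :=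
  Relation.ReflTransGen.trans h h'

theorem cmb_refl (k : ℕ) (u : V) : CmB G co k u u := by
  cases k with
  | zero => rfl
  | succ k => exact Or.inl rfl

theorem cmb_cm {k : ℕ} {u v : V} (h : CmB G co k u v) : Cm G co u v := by
  induction k generalizing u with
  | zero => exact h ▸ Relation.ReflTransGen.refl
  | succ k ih =>
    rcases h with h | ⟨w, h1, h2⟩
    · exact h ▸ Relation.ReflTransGen.refl
    · exact Relation.ReflTransGen.head h1 (ih h2)

theorem cmb_succ {k : ℕ} {u v : V} (h : CmB G co k u v) : CmB G co (k + 1) u v := by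
  induction k generalizing u with
  | zero => exact Or.inl h
  | succ k ih =>
    rcases h with h | ⟨w, h1, h2⟩
    · exact Or.inl h
    · exact Or.inr ⟨w, h1, ih h2⟩

theorem cmb_mono {k l : ℕ} (hk : k ≤ l) {u v : V} (h : CmB G co k u v) : CmB G co l u v := by
  induction l, hk using Nat.le_induction with
  | base => exact h
  | succ l _ ih => exact cmb_succ ih

theorem cm_cmb {u v : V} (h : Cm G co u v) : ∃ k, CmB G co k u v := by
  induction h using Relation.ReflTransGen.head_induction_on with
  | refl => exact ⟨0, rfl⟩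
  | head h1 _ ih =>
    obtain ⟨k, hk⟩ := ih
    exact ⟨k + 1, Or.inr ⟨_, h1, hk⟩⟩

theorem cmb_bd {L : ℕ} (bd : ∀ u v, CmB G co (L + 1) u v → CmB G co L u v) {u v : V} {k : ℕ}
    (h : CmB G co k u v) : CmB G co L u v := by
  induction k generalizing u with
  | zero => exact h ▸ cmb_refl L u
  | succ k ih =>
    rcases h with h | ⟨w, h1, h2⟩
    · exact h ▸ cmb_refl L u
    · exact bd _ _ (Or.inr ⟨w, h1, ih h2⟩)

/-- under the bound, components are given by bounded paths -/
theorem cm_iff {L : ℕ} (bd : ∀ u v, CmB G co (L + 1) u v → CmB G co L u v) (u v : V) :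
    Cm G co u v ↔ CmB G co L u v :=
  ⟨fun h => (cm_cmb h).elim fun _ hk => cmb_bd bd hk, cmb_cm⟩

end Pool.Agent.H8.MF
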