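import Pool.Agent.H8.MF.Fin
import Pool.Agent.H8.MC.GTargets

/-!
# Spectra over classes of graphs closed under subgraphs, with colours only: the theorem
-/

set_option autoImplicit false

namespace Pool.Agent.H8.MC

open Pool.Agent.H69.Sp Pool.Agent.H69.Mt Pool.Agent.H8.VR Pool.Agent.H69.VR Pool.Agent.H8.PU
open Pool.Agent.H8.DI Pool.Agent.H8.UN

/-- the negative half with first-order formulas and colours only -/
theorem pf_negG (hBND : T_BND) (hEXQ : T_EXQ) (hXSE : T_XSE) (hIMG : T_IMG) (hGRY : T_GRY) :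
    ∃ Ψ : ℕ → MS, (∀ s, BinZero (Ψ s) ∧ FirstOrder (Ψ s)) ∧
      (∀ C : GClass, HasGrids C → Pool.Agent.H51.UN.Complete (specF C (Ψ 1))) ∧
      ∀ C : GClass, Definable C → SubClosed C → GridMinors C →
        ∃ s, Pool.Agent.H51.UN.Complete (specF C (Ψ s)) := by
  obtain ⟨r, hr, h2⟩ := hXSE X0 pf_xs
  have h3 : ∀ s : ℕ, ∃ Ψ : MS, (BinZero Ψ ∧ FirstOrder Ψ) ∧ (0 < s → ∀ C : GClass, ExM C s →
      ∀ n, (n ∈ specF C Ψ ↔ ∃ m ∈ X0, n = s * m ^ (2 * r))) := by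
    intro s
    rcases Nat.eq_zero_or_pos s with h | h
    · exact ⟨MS.eq 0 0, ⟨trivial, trivial⟩, fun h' => absurd h' (by omega)⟩
    · obtain ⟨Ψ, h4, h5⟩ := h2 s h
      exact ⟨Ψ, h4, fun _ => h5⟩
  choose F hF1 hF2 using h3
  refine ⟨F, hF1, fun C hC => ?_, fun C hD hS hG => ?_⟩
  · exact complete_im one_pos hr hIMG (hF2 1 one_pos C (hGRY C hC))
  · obtain ⟨L, hL, h1⟩ := hBND C hD hS hG
    obtain ⟨s, hs, h4⟩ := hEXQ C hS L hL h1
    exact ⟨s, complete_im hs hr hIMG (hF2 s hs C h4)⟩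

end Pool.Agent.H8.MC
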