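import Pool.Agent.H8.MC.All
import Pool.Agent.H8.MF.FinG
import Pool.Agent.H8.DE.All
import Pool.Agent.H1.MF.CRZ
import Pool.Agent.H1.MF.GRY
import Pool.Agent.H14.MF.ERD
import Pool.Agent.H14.MF.GRF
import Pool.Agent.H14.MF.MSF
import Pool.Agent.H18.MF.BDD
import Pool.Agent.H60.MF.ROC
import Pool.Agent.H60.MF.XSE
import Pool.Agent.H69.MF.AUG
import Pool.Agent.H69.MF.CNN
import Pool.Agent.H69.MF.TOR
import Pool.Agent.H77.MF.GRW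
import Pool.Agent.H88.MF.EXQ
import Pool.Agent.H94.MF.NUM
import Pool.Agent.H94.MF.WTX

/-!
# Spectra over classes of graphs closed under subgraphs, first-order logic and colours: everything
-/

set_option autoImplicit false

namespace Pool.Agent.H8.MC

open Pool.Agent Pool.Agent.H69.Sp Pool.Agent.H8.VR Pool.Agent.H69.VR Pool.Agent.H8.JS
open Pool.Agent.H8.PL (Z_GR Z_SQ z_sq)
open Pool.Agent.H8.DE (DE d_cl)

theorem t_exq : T_EXQ := H88.MF.pf_EXQ H77.MF.pf_GRW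
theorem t_msf : T_MSF := H14.MF.pf_MSF
theorem t_grf : T_GRF := H14.MF.pf_GRF t_msf
theorem t_cnn : T_CNN := H69.MF.pf_CNN H69.MF.pf_TOR H60.MF.pf_ROC H39.PL.pf_gr
theorem t_crz : T_CRZ := H1.MF.pf_CRZ H39.PL.pf_gr
theorem t_erd : T_ERD := H14.MF.pf_ERD t_msf
theorem t_xse : T_XSE :=
  H60.MF.pf_XSE z_sq t_erd H94.MF.pf_NUM t_wmo t_cnn H69.MF.pf_AUG H94.MF.pf_WTX H18.MF.pf_BDD t_crz

/-- bounded tree-width: the languages are in `E` -/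
theorem t_dcl (C : GClass) (hD : Definable C)
    (hG : ∃ r, ∀ (n : ℕ) (G : SimpleGraph (Fin n)), C n G → ¬ Minor (grid r) G)
    (Ψ : MS) (φ : C2) (hΨ : BinZero Ψ) : lang (specC C Ψ φ) ∈ DE := by
  obtain ⟨r, hr⟩ := hG
  obtain ⟨k, hk⟩ := t_grid r
  refine d_cl C k hD (fun n G hn hC => ?_) Ψ φ hΨ
  have : Nonempty (Fin n) := ⟨⟨0, hn⟩⟩
  exact hk (Fin n) G (hr n G hC)

theorem v_8 :
    (∀ C : GClass, Definable C →
      (∃ r, ∀ (n : ℕ) (G : SimpleGraph (Fin n)), C n G → ¬ Minor (grid r) G) →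
      ∀ (Ψ : MS) (φ : C2), BinZero Ψ →
        (IsSpectrum (specC C Ψ φ) ∧ IsSpectrum (posCompl (specC C Ψ φ))) ∧
          lang (specC C Ψ φ) ∈ DE) ∧
    ∃ Ψ : ℕ → MS, (∀ s, BinZero (Ψ s) ∧ FirstOrder (Ψ s)) ∧
      (∀ C : GClass, (∀ (r n : ℕ) (G : SimpleGraph (Fin n)), Nonempty (G ≃g grid r) → C n G) →
        NEComplete (specF C (Ψ 1)) ∧ (lang (specF C (Ψ 1)) ∈ coNE ↔ NE = coNE)) ∧
      ∀ C : GClass, Definable C → SubClosed C →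
        (∀ r, ∃ (n : ℕ) (G : SimpleGraph (Fin n)), C n G ∧ Minor (grid r) G) →
        ∃ s, NEComplete (specF C (Ψ s)) ∧ (lang (specF C (Ψ s)) ∈ coNE ↔ NE = coNE) := by
  refine ⟨fun C hD hG Ψ φ hΨ => ⟨(v_7.1 C hD hG Ψ φ hΨ).1, t_dcl C hD hG Ψ φ hΨ⟩, ?_⟩
  obtain ⟨Ψ, h1, h2, h3⟩ := pf_negG t_bnd t_exq t_xse t_img H1.MF.pf_GRY
  refine ⟨Ψ, h1, fun C hC => ne_of _ (h2 C hC), fun C hD hS hG => ?_⟩
  obtain ⟨s, hs⟩ := h3 C hD hS hG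
  exact ⟨s, ne_of _ hs⟩

end Pool.Agent.H8.MC
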