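import Pool.Agent.H8.MC.Fin
import Pool.Agent.H8.MC.FTargets

/-!
# Spectra over classes of graphs closed under subgraphs, with first-order logic: the theorem
-/

set_option autoImplicit false

namespace Pool.Agent.H8.MC

open Pool.Agent.H69.Sp Pool.Agent.H69.Mt Pool.Agent.H8.VR Pool.Agent.H69.VR Pool.Agent.H8.PU
open Pool.Agent.H8.DI Pool.Agent.H8.UN

theorem complete_im {T : Set ℕ} {L r : ℕ} (hL : 0 < L) (hr : 0 < r) (hIMG : T_IMG)
    (h4 : ∀ n, n ∈ T ↔ ∃ m ∈ X0, n = L * m ^ (2 * r)) : Pool.Agent.H51.UN.Complete T := by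
  have e : T = {n | ∃ m ∈ X0, n = L * m ^ (2 * r)} := Set.ext h4
  refine Pool.Agent.H51.UN.complete_of n_ur n_re _ (fun n => L * n ^ (2 * r))
    ((L : Polynomial ℤ) * Polynomial.X ^ (2 * r)) (e ▸ hIMG X0 pf_xs L (2 * r) hL (by omega))
    (fun n _ => by simp) (fun n _ => ?_) (fun X hX => ge4 Pool.Agent.H19.UN.pf_f4 _ X
      (Pool.Agent.H84.TW.pf_pb X hX L (2 * r) hL (by omega))) (fun n _ => ?_)
  · calc n ≤ n ^ (2 * r) := Nat.le_self_pow (by omega) n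
      _ ≤ L * n ^ (2 * r) := Nat.le_mul_of_pos_left _ hL
  · rw [h4]
    constructor
    · intro hn
      exact ⟨n, hn, rfl⟩
    · rintro ⟨m, hm, hk⟩
      have h1 : n ^ (2 * r) = m ^ (2 * r) := Nat.eq_of_mul_eq_mul_left hL hk
      rw [Nat.pow_left_injective (show (2 * r) ≠ 0 by omega) h1]
      exact hm

/-- the negative half with first-order formulas -/
theorem pf_negF (hBND : T_BND) (hEXB : T_EXB) (hXSF : T_XSF) (hIMG : T_IMG) (hGRX : T_GRX) :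
    ∃ (Ψ : ℕ → MS) (φ : ℕ → C2), (∀ L, BinZero (Ψ L) ∧ FirstOrder (Ψ L)) ∧
      (∀ C : GClass, HasGrids C → Pool.Agent.H51.UN.Complete (specC C (Ψ 1) (φ 1))) ∧
      ∀ C : GClass, Definable C → SubClosed C → GridMinors C →
        ∃ L, Pool.Agent.H51.UN.Complete (specC C (Ψ L) (φ L)) := by
  obtain ⟨r, hr, h2⟩ := hXSF X0 pf_xs
  have h3 : ∀ L : ℕ, ∃ Ψφ : MS × C2, (BinZero Ψφ.1 ∧ FirstOrder Ψφ.1) ∧ (0 < L → ∀ C : GClass,
      (∀ m, 0 < m → ∃ (G : SimpleGraph (Fin (L * m ^ 2)))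
        (π : Fin (L * m ^ 2) → Option (Fin m × Fin m)), C (L * m ^ 2) G ∧ GMod m G π ∧
          ∀ p, {v | π v = some p}.ncard ≤ L) →
      ∀ n, (n ∈ specC C Ψφ.1 Ψφ.2 ↔ ∃ m ∈ X0, n = L * m ^ (2 * r))) := by
    intro L
    rcases Nat.eq_zero_or_pos L with h | h
    · exact ⟨(MS.eq 0 0, C2.eq true true), ⟨trivial, trivial⟩, fun h' => absurd h' (by omega)⟩
    · obtain ⟨Ψ, φ, h4, h5⟩ := h2 L h
      exact ⟨(Ψ, φ), h4, fun _ => h5⟩
  choose F hF1 hF2 using h3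
  refine ⟨fun L => (F L).1, fun L => (F L).2, hF1, fun C hC => ?_, fun C hD hS hG => ?_⟩
  · exact complete_im one_pos hr hIMG (hF2 1 one_pos C (hGRX C hC))
  · obtain ⟨L, hL, h1⟩ := hBND C hD hS hG
    exact ⟨L, complete_im hL hr hIMG (hF2 L hL C (hEXB C hS L hL h1))⟩

end Pool.Agent.H8.MC
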